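import Mathlib

/-!
# Weights of irreducible representations of a semidirect product with an elementary abelian
2-group
-/

open Representation

set_option linter.unusedSectionVars false
set_option linter.style.haveILetI false

noncomputable section

namespace Pool.Agent.V1150.PiDeg

/-- The semidirect product of an additive group `A` and a group `Q` acting on it. -/
@[ext] structure SD (A Q : Type) where
  a : A
  q : Q

variable {A Q : Type} [AddCommGroup A] [Group Q] [DistribMulAction Q A]

instance : Mul (SD A Q) := ⟨fun x y => ⟨x.a + x.q • y.a, x.q * y.q⟩⟩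
instance : One (SD A Q) := ⟨⟨0, 1⟩⟩
instance : Inv (SD A Q) := ⟨fun x => ⟨-(x.q⁻¹ • x.a), x.q⁻¹⟩⟩

@[simp] lemma mul_a (x y : SD A Q) : (x * y).a = x.a + x.q • y.a := rfl
@[simp] lemma mul_q (x y : SD A Q) : (x * y).q = x.q * y.q := rfl
@[simp] lemma one_a : (1 : SD A Q).a = 0 := rfl
@[simp] lemma one_q : (1 : SD A Q).q = 1 := rfl
@[simp] lemma inv_a (x : SD A Q) : (x⁻¹).a = -(x.q⁻¹ • x.a) := rfl
@[simp] lemma inv_q (x : SD A Q) : (x⁻¹).q = x.q⁻¹ := rfl

instance : Group (SD A Q) := Group.ofLeftAxioms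
  (by intro x y z; ext <;> simp [add_assoc, mul_assoc, mul_smul])
  (by intro x; ext <;> simp)
  (by intro x; ext <;> simp)

instance [Finite A] [Finite Q] : Finite (SD A Q) := by
  apply Finite.of_injective (fun x : SD A Q => (x.a, x.q))
  intro x y h
  simp only [Prod.mk.injEq] at h
  ext
  · exact h.1
  · exact h.2

lemma card_SD : Nat.card (SD A Q) = Nat.card A * Nat.card Q := by
  rw [← Nat.card_prod]
  exact Nat.card_congr ⟨fun x => (x.a, x.q), fun x => ⟨x.1, x.2⟩, fun _ => rfl, fun _ => rfl⟩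

def inl (a : A) : SD A Q := ⟨a, 1⟩
def inr (q : Q) : SD A Q := ⟨0, q⟩

lemma decomp (x : SD A Q) : x = inl x.a * inr x.q := by
  ext <;> simp [inl, inr]

lemma inl_inr (a : A) (q : Q) : (inl a * inr q : SD A Q) = inr q * inl (q⁻¹ • a) := by
  ext <;> simp [inl, inr]

lemma inl_mul (a b : A) : (inl a * inl b : SD A Q) = inl (a + b) := by
  ext <;> simp [inl]

lemma inl_zero : (inl 0 : SD A Q) = 1 := rfl

/-- the sign attached to an element of `ZMod 2` -/
def sgn (x : ZMod 2) : ℂ := if x = 0 then 1 else -1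

lemma sgn_zero : sgn 0 = 1 := if_pos rfl
lemma sgn_one : sgn 1 = -1 := if_neg (by decide)
lemma sgn_add (x y : ZMod 2) : sgn (x + y) = sgn x * sgn y := by
  have h : ∀ z : ZMod 2, z = 0 ∨ z = 1 := by decide
  rcases h x with rfl | rfl <;> rcases h y with rfl | rfl
  · simp [sgn_zero]
  · simp [sgn_zero]
  · simp [sgn_zero]
  · rw [show (1 : ZMod 2) + 1 = 0 by decide, sgn_zero, sgn_one]; norm_num
lemma sgn_inj {x y : ZMod 2} (h : sgn x = sgn y) : x = y := by
  have h2 : ∀ z : ZMod 2, z = 0 ∨ z = 1 := by decide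
  rcases h2 x with rfl | rfl <;> rcases h2 y with rfl | rfl
  · rfl
  · rw [sgn_zero, sgn_one] at h; norm_num at h
  · rw [sgn_zero, sgn_one] at h; norm_num at h
  · rfl

/-- the action on weights -/
instance dualAct : MulAction Q (A →+ ZMod 2) where
  smul q l := l.comp (DistribSMul.toAddMonoidHom A q⁻¹)
  one_smul l := by
    ext a
    change l ((1 : Q)⁻¹ • a) = l a
    simp
  mul_smul q r l := by
    ext a
    change l ((q * r)⁻¹ • a) = l (r⁻¹ • q⁻¹ • a)
    rw [mul_inv_rev, mul_smul]

lemma dual_apply (q : Q) (l : A →+ ZMod 2) (a : A) : (q • l) a = l (q⁻¹ • a) := rfl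

variable {V : Type} [AddCommGroup V] [Module ℂ V]

/-- weight spaces -/
def wt (ρ : Representation ℂ (SD A Q) V) (l : A →+ ZMod 2) : Submodule ℂ V where
  carrier := {v | ∀ a : A, ρ (inl a) v = sgn (l a) • v}
  add_mem' := by
    intro v w hv hw a
    rw [map_add, hv a, hw a, smul_add]
  zero_mem' := by intro a; simp
  smul_mem' := by
    intro c v hv a
    rw [map_smul, hv a, smul_comm]

lemma mem_wt {ρ : Representation ℂ (SD A Q) V} {l : A →+ ZMod 2} {v : V} :
    v ∈ wt ρ l ↔ ∀ a : A, ρ (inl a) v = sgn (l a) • v := Iff.rfl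

lemma inr_mem_wt {ρ : Representation ℂ (SD A Q) V} {l : A →+ ZMod 2} {v : V} (hv : v ∈ wt ρ l)
    (q : Q) : ρ (inr q) v ∈ wt ρ (q • l) := by
  intro a
  rw [← Module.End.mul_apply, ← map_mul, inl_inr, map_mul, Module.End.mul_apply, hv, map_smul]
  rfl

lemma inl_mem_wt {ρ : Representation ℂ (SD A Q) V} {l : A →+ ZMod 2} {v : V} (hv : v ∈ wt ρ l)
    (a : A) : ρ (inl a) v ∈ wt ρ l := by
  rw [hv a]
  exact Submodule.smul_mem _ _ hv

/-- an invariant subspace of an irreducible representation is trivial -/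
lemma irr_top {G : Type} [Group G] {ρ : Representation ℂ G V} (h : ρ.IsIrreducible)
    (W : Submodule ℂ V) (hW : ∀ g : G, ∀ v ∈ W, ρ g v ∈ W) (hne : W ≠ ⊥) : W = ⊤ := by
  let S : Subrepresentation ρ := ⟨W, fun g v hv => hW g v hv⟩
  rcases h.eq_bot_or_eq_top S with h1 | h1
  · exact absurd (congrArg Subrepresentation.toSubmodule h1) hne
  · exact congrArg Subrepresentation.toSubmodule h1

lemma irr_of {G : Type} [Group G] {ρ : Representation ℂ G V} [Nontrivial V]
    (h : ∀ W : Submodule ℂ V, (∀ g : G, ∀ v ∈ W, ρ g v ∈ W) → W ≠ ⊥ → W = ⊤) :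
    ρ.IsIrreducible := by
  haveI : Nontrivial (Subrepresentation ρ) := by
    refine ⟨⊥, ⊤, fun h1 => ?_⟩
    have h2 := congrArg Subrepresentation.toSubmodule h1
    exact (bot_ne_top (α := Submodule ℂ V)) h2
  refine ⟨fun S => ?_⟩
  by_cases hS : S.toSubmodule = ⊥
  · left
    exact Subrepresentation.toSubmodule_injective hS
  · right
    exact Subrepresentation.toSubmodule_injective (h _ (fun g v hv => S.apply_mem_toSubmodule g hv) hS)

lemma irr_nontriv {G : Type} [Group G] {ρ : Representation ℂ G V} (h : ρ.IsIrreducible) :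
    Nontrivial V := by
  by_contra hn
  rw [not_nontrivial_iff_subsingleton] at hn
  have h1 : (⊥ : Subrepresentation ρ) = ⊤ := by
    apply Subrepresentation.toSubmodule_injective
    exact Subsingleton.elim _ _
  exact bot_ne_top h1

/-- the weight spaces are independent -/
lemma wt_indep (ρ : Representation ℂ (SD A Q) V) : iSupIndep (fun l : A →+ ZMod 2 => wt ρ l) := by
  have h1 := Module.End.independent_iInf_maxGenEigenspace_of_forall_mapsTo
    (fun a : A => ρ (inl a)) (by
      intro a b φ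
      apply Module.End.mapsTo_maxGenEigenspace_of_comm
      change ρ (inl b) * ρ (inl a) = ρ (inl a) * ρ (inl b)
      rw [← map_mul, ← map_mul, inl_mul, inl_mul, add_comm])
  have hinj : Function.Injective (fun (l : A →+ ZMod 2) (a : A) => sgn (l a)) := by
    intro l l' h
    ext a
    exact sgn_inj (congrFun h a)
  refine (h1.comp hinj).mono ?_
  intro l
  simp only [Function.comp]
  refine le_iInf fun a => ?_
  intro v hv
  rw [Module.End.mem_maxGenEigenspace]
  refine ⟨1, ?_⟩
  rw [pow_one, LinearMap.sub_apply, hv a]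
  simp

variable [FiniteDimensional ℂ V]

lemma finrank_wt (ρ : Representation ℂ (SD A Q) V) (l : A →+ ZMod 2) (q : Q) :
    Module.finrank ℂ (wt ρ (q • l)) = Module.finrank ℂ (wt ρ l) := by
  symm
  have h1 : ∀ v, ρ (inr q)⁻¹ (ρ (inr q) v) = v := by
    intro v
    rw [← Module.End.mul_apply, ← map_mul]; simp
  have h2 : ∀ v, ρ (inr q) (ρ (inr q)⁻¹ v) = v := by
    intro v
    rw [← Module.End.mul_apply, ← map_mul]; simp
  have h3 : (inr q : SD A Q)⁻¹ = inr q⁻¹ := by ext <;> simp [inr]
  have h4 : ∀ v ∈ wt ρ (q • l), ρ (inr q)⁻¹ v ∈ wt ρ l := by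
    intro v hv
    have := inr_mem_wt hv q⁻¹
    rw [smul_smul, inv_mul_cancel, one_smul] at this
    rw [h3]
    exact this
  exact LinearEquiv.finrank_eq
    { toFun := fun v => ⟨ρ (inr q) v.1, inr_mem_wt v.2 q⟩
      invFun := fun v => ⟨ρ (inr q)⁻¹ v.1, h4 v.1 v.2⟩
      map_add' := fun v w => Subtype.ext (map_add _ _ _)
      map_smul' := fun c v => Subtype.ext (map_smul _ _ _)
      left_inv := fun v => Subtype.ext (h1 _)
      right_inv := fun v => Subtype.ext (h2 _) }

/-- Clifford's theorem -/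
theorem finrank_eq [Finite A] (ρ : Representation ℂ (SD A Q) V) (h : ρ.IsIrreducible)
    (l : A →+ ZMod 2) (hl : wt ρ l ≠ ⊥) :
    Module.finrank ℂ V = Nat.card (MulAction.orbit Q l) * Module.finrank ℂ (wt ρ l) := by
  classical
  haveI : Finite (A →+ ZMod 2) := by
    apply Finite.of_injective (fun (l : A →+ ZMod 2) => (l : A → ZMod 2))
    exact DFunLike.coe_injective
  haveI : Fintype (MulAction.orbit Q l) := Fintype.ofFinite _
  let F : MulAction.orbit Q l → Submodule ℂ V := fun m => wt ρ m.1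
  have hind : iSupIndep F := (wt_indep ρ).comp Subtype.val_injective
  have htop : iSup F = ⊤ := by
    apply irr_top h
    · intro g v hv
      induction hv using Submodule.iSup_induction' with
      | mem m v hv =>
        rw [decomp g, map_mul, Module.End.mul_apply]
        have h1 := inl_mem_wt (inr_mem_wt hv g.q) g.a
        exact Submodule.mem_iSup_of_mem (⟨g.q • m.1, MulAction.mem_orbit_of_mem_orbit g.q m.2⟩ :
          MulAction.orbit Q l) h1
      | zero => simp
      | add v w _ _ hv hw =>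
        rw [map_add]
        exact Submodule.add_mem _ hv hw
    · intro h1
      rw [iSup_eq_bot] at h1
      exact hl (h1 ⟨l, MulAction.mem_orbit_self l⟩)
  have hint : DirectSum.IsInternal F :=
    DirectSum.isInternal_submodule_of_iSupIndep_of_iSup_eq_top hind htop
  have h2 : Module.finrank ℂ V = ∑ m : MulAction.orbit Q l, Module.finrank ℂ (F m) := by
    rw [← Module.finrank_directSum]
    exact (LinearEquiv.ofBijective (DirectSum.coeLinearMap F) hint).finrank_eq.symm
  rw [h2, Finset.sum_congr rfl (g := fun _ => Module.finrank ℂ (wt ρ l))]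
  · rw [Finset.sum_const, Finset.card_univ, Nat.card_eq_fintype_card, smul_eq_mul]
  · rintro ⟨m, q, rfl⟩ _
    exact finrank_wt ρ l q

/-- there is a weight -/
theorem exists_wt [Finite A] (hA : ∀ a : A, a + a = 0) (ρ : Representation ℂ (SD A Q) V)
    [Nontrivial V] : ∃ l : A →+ ZMod 2, wt ρ l ≠ ⊥ := by
  classical
  -- a minimal nonzero invariant subspace for `A`
  let P : ℕ → Prop := fun n => ∃ W : Submodule ℂ V, W ≠ ⊥ ∧ (∀ a : A, ∀ v ∈ W, ρ (inl a) v ∈ W) ∧
    Module.finrank ℂ W = n
  have hP : ∃ n, P n := ⟨_, ⊤, top_ne_bot, fun _ _ _ => trivial, rfl⟩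
  obtain ⟨W, hW0, hWi, hWn⟩ := Nat.find_spec hP
  have hmin : ∀ U : Submodule ℂ V, U ≠ ⊥ → (∀ a : A, ∀ v ∈ U, ρ (inl a) v ∈ U) → U ≤ W → U = W := by
    intro U hU hUi hle
    apply Submodule.eq_of_le_of_finrank_le hle
    rw [hWn]
    exact Nat.find_min' hP ⟨U, hU, hUi, rfl⟩
  -- every element acts by a sign
  have hsq : ∀ a : A, ∀ v : V, ρ (inl a) (ρ (inl a) v) = v := by
    intro a v
    rw [← Module.End.mul_apply, ← map_mul, inl_mul, hA, inl_zero, map_one, Module.End.one_apply]
  have hcomm : ∀ (a b : A) (v : V), ρ (inl a) (ρ (inl b) v) = ρ (inl b) (ρ (inl a) v) := by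
    intro a b v
    rw [← Module.End.mul_apply, ← Module.End.mul_apply, ← map_mul, ← map_mul, inl_mul, inl_mul,
      add_comm]
  have hsign : ∀ a : A, ∃ x : ZMod 2, ∀ v ∈ W, ρ (inl a) v = sgn x • v := by
    intro a
    by_cases h1 : ∀ v ∈ W, ρ (inl a) v = v
    · exact ⟨0, fun v hv => by rw [sgn_zero, one_smul, h1 v hv]⟩
    · push Not at h1
      obtain ⟨v, hv, hne⟩ := h1
      -- the `-1` eigenspace in `W`
      let U : Submodule ℂ V := W ⊓ LinearMap.ker (ρ (inl a) + 1)
      have hmem : ∀ w, w ∈ U ↔ w ∈ W ∧ ρ (inl a) w = -w := by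
        intro w
        rw [Submodule.mem_inf, LinearMap.mem_ker, LinearMap.add_apply, Module.End.one_apply,
          eq_neg_iff_add_eq_zero]
      have hU : U = W := by
        apply hmin
        · intro hbot
          have : ρ (inl a) v - v ∈ U := by
            rw [hmem]
            refine ⟨W.sub_mem (hWi a v hv) hv, ?_⟩
            rw [map_sub, hsq, neg_sub]
          rw [hbot, Submodule.mem_bot, sub_eq_zero] at this
          exact hne this
        · intro b w hw
          rw [hmem] at hw ⊢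
          refine ⟨hWi b w hw.1, ?_⟩
          rw [hcomm, hw.2, map_neg]
        · exact inf_le_left
      refine ⟨1, fun w hw => ?_⟩
      rw [← hU, hmem] at hw
      rw [sgn_one, neg_one_smul, hw.2]
  choose x hx using hsign
  obtain ⟨v, hv, hv0⟩ := (Submodule.ne_bot_iff W).mp hW0
  have hadd : ∀ a b : A, x (a + b) = x a + x b := by
    intro a b
    apply sgn_inj
    rw [sgn_add]
    have h1 : ρ (inl (a + b)) v = (sgn (x a) * sgn (x b)) • v := by
      rw [← inl_mul, map_mul, Module.End.mul_apply, hx b v hv, map_smul, hx a v hv, smul_smul,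
        mul_comm]
    rw [hx (a + b) v hv] at h1
    exact smul_left_injective ℂ hv0 h1
  refine ⟨AddMonoidHom.mk' x hadd, ?_⟩
  rw [Submodule.ne_bot_iff]
  exact ⟨v, fun a => hx a v hv, hv0⟩

end Pool.Agent.V1150.PiDeg
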