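import Mathlib

/-!
# Subgroups of `GL(3,2)` of index prime to 6
-/

open Matrix

set_option linter.unusedSectionVars false
set_option linter.style.haveILetI false

noncomputable section

namespace Pool.Agent.V1150.PiDeg

abbrev K3 := GL (Fin 3) (ZMod 2)

lemma card_K3 : Nat.card K3 = 168 := by
  rw [Matrix.card_GL_field]
  simp [Fin.prod_univ_three]

lemma two_eq (x : ZMod 2) : x + x = 0 := CharTwo.add_self_eq_zero x

lemma tsq (u f : Fin 3 → ZMod 2) (h : f ⬝ᵥ u = 0) :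
    (1 + vecMulVec u f) * (1 + vecMulVec u f) = (1 : Matrix (Fin 3) (Fin 3) (ZMod 2)) := by
  have h1 : vecMulVec u f * vecMulVec u f = (0 : Matrix (Fin 3) (Fin 3) (ZMod 2)) := by
    rw [vecMulVec_mul_vecMulVec, h]
    ext i j
    simp [vecMulVec_apply]
  rw [mul_add, mul_one, add_mul, one_mul, h1, add_zero, add_assoc]
  ext i j
  simp only [Matrix.add_apply]
  rw [two_eq, add_zero]

/-- transvections -/
def tv (u f : Fin 3 → ZMod 2) (h : f ⬝ᵥ u = 0) : K3 :=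
  ⟨1 + vecMulVec u f, 1 + vecMulVec u f, tsq u f h, tsq u f h⟩

lemma tv_coe (u f : Fin 3 → ZMod 2) (h : f ⬝ᵥ u = 0) :
    ((tv u f h : K3) : Matrix (Fin 3) (Fin 3) (ZMod 2)) = 1 + vecMulVec u f := rfl
lemma tv_inv_coe (u f : Fin 3 → ZMod 2) (h : f ⬝ᵥ u = 0) :
    (((tv u f h)⁻¹ : K3) : Matrix (Fin 3) (Fin 3) (ZMod 2)) = 1 + vecMulVec u f := rfl

lemma tv_mulVec (u f : Fin 3 → ZMod 2) (h : f ⬝ᵥ u = 0) (v : Fin 3 → ZMod 2) :
    ((tv u f h : K3) : Matrix (Fin 3) (Fin 3) (ZMod 2)) *ᵥ v = v + (f ⬝ᵥ v) • u := by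
  rw [tv_coe, add_mulVec, one_mulVec, vecMulVec_mulVec]
  congr 1
  ext i
  simp [mul_comm]

lemma tv_vecMul (u f : Fin 3 → ZMod 2) (h : f ⬝ᵥ u = 0) (w : Fin 3 → ZMod 2) :
    w ᵥ* ((tv u f h : K3) : Matrix (Fin 3) (Fin 3) (ZMod 2)) = w + (w ⬝ᵥ u) • f := by
  rw [tv_coe, vecMul_add, vecMul_one, vecMul_vecMulVec]

lemma ex1 : ∀ v w : Fin 3 → ZMod 2, w ≠ 0 → ∃ u f : Fin 3 → ZMod 2,
    f ⬝ᵥ u = 0 ∧ f ⬝ᵥ v = 0 ∧ w ⬝ᵥ u = 1 ∧ f ≠ 0 := by
  decide

lemma ex2 : ∀ v : Fin 3 → ZMod 2, v ≠ 0 → ∃ u f : Fin 3 → ZMod 2,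
    f ⬝ᵥ u = 0 ∧ f ⬝ᵥ v = 1 ∧ u ≠ 0 := by
  decide

lemma ex3 : ∀ v w : Fin 3 → ZMod 2, v ≠ 0 → w ≠ 0 → ∃ f : Fin 3 → ZMod 2,
    f ⬝ᵥ (v + w) = 0 ∧ f ⬝ᵥ v = 1 := by
  decide

/-- stabiliser of a vector -/
def S1 (v : Fin 3 → ZMod 2) : Subgroup K3 where
  carrier := {g | (g : Matrix (Fin 3) (Fin 3) (ZMod 2)) *ᵥ v = v}
  mul_mem' := by
    intro a b ha hb
    simp only [Set.mem_ofPred_eq] at *
    rw [Units.val_mul, ← mulVec_mulVec, hb, ha]
  one_mem' := by simp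
  inv_mem' := by
    intro a ha
    simp only [Set.mem_ofPred_eq] at *
    conv_lhs => rw [← ha]
    rw [mulVec_mulVec, ← Units.val_mul, inv_mul_cancel, Units.val_one, one_mulVec]

/-- stabiliser of a covector -/
def S2 (w : Fin 3 → ZMod 2) : Subgroup K3 where
  carrier := {g | w ᵥ* (g : Matrix (Fin 3) (Fin 3) (ZMod 2)) = w}
  mul_mem' := by
    intro a b ha hb
    simp only [Set.mem_ofPred_eq] at *
    rw [Units.val_mul, ← vecMul_vecMul, ha, hb]
  one_mem' := by simp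
  inv_mem' := by
    intro a ha
    simp only [Set.mem_ofPred_eq] at *
    conv_lhs => rw [← ha]
    rw [vecMul_vecMul, ← Units.val_mul, mul_inv_cancel, Units.val_one, vecMul_one]

lemma S1_ne_top {v : Fin 3 → ZMod 2} (hv : v ≠ 0) : S1 v ≠ ⊤ := by
  intro h
  obtain ⟨u, f, h1, h2, h3⟩ := ex2 v hv
  have h4 : tv u f h1 ∈ S1 v := by rw [h]; trivial
  have h5 : ((tv u f h1 : K3) : Matrix (Fin 3) (Fin 3) (ZMod 2)) *ᵥ v = v := h4
  rw [tv_mulVec, h2, one_smul] at h5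
  exact h3 (by simpa using h5)

lemma S1_ne_S2 {v w : Fin 3 → ZMod 2} (hw : w ≠ 0) :
    ∃ g : K3, g ∈ S1 v ∧ g ∉ S2 w := by
  obtain ⟨u, f, h1, h2, h3, h4⟩ := ex1 v w hw
  refine ⟨tv u f h1, ?_, ?_⟩
  · change ((tv u f h1 : K3) : Matrix (Fin 3) (Fin 3) (ZMod 2)) *ᵥ v = v
    rw [tv_mulVec, h2, zero_smul, add_zero]
  · intro h5
    have h6 : w ᵥ* ((tv u f h1 : K3) : Matrix (Fin 3) (Fin 3) (ZMod 2)) = w := h5
    rw [tv_vecMul, h3, one_smul] at h6
    exact h4 (by simpa using h6)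

/-- A subgroup of index prime to 6 cannot fix both a nonzero vector and a nonzero covector. -/
theorem no_common (T : Subgroup K3) (h6 : Nat.Coprime T.index 6) {v w : Fin 3 → ZMod 2} (hv : v ≠ 0)
    (hw : w ≠ 0) (h1 : T ≤ S1 v) (h2 : T ≤ S2 w) : False := by
  have hT7 : T.index ∣ 7 := by
    have h3 : T.index ∣ 24 * 7 := by
      have := T.index_dvd_card
      rw [card_K3] at this
      exact this
    have h4 : Nat.Coprime T.index 24 := by
      have h5 : Nat.Coprime T.index (6 * 6 * 6) :=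
        Nat.Coprime.mul_right (Nat.Coprime.mul_right h6 h6) h6
      exact Nat.Coprime.coprime_dvd_right (by norm_num) h5
    exact h4.dvd_of_dvd_mul_left h3
  have hp : Nat.Prime 7 := by norm_num
  have key : ∀ S : Subgroup K3, T ≤ S → S ≠ ⊤ → T = S := by
    intro S hS hne
    have h3 : S.index ∣ T.index := Subgroup.index_dvd_of_le hS
    have h4 : S.index = 7 := by
      rcases (Nat.dvd_prime hp).mp (h3.trans hT7) with h | h
      · exact absurd (Subgroup.index_eq_one.mp h) hne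
      · exact h
    have h5 : T.index = 7 := by
      apply Nat.dvd_antisymm hT7
      rw [← h4]; exact h3
    have h6 : T.relIndex S = 1 := by
      have h7 := Subgroup.relIndex_mul_index hS
      rw [h4, h5] at h7
      omega
    exact le_antisymm hS (Subgroup.relIndex_eq_one.mp h6)
  obtain ⟨g, hg1, hg2⟩ := S1_ne_S2 (v := v) hw
  have hS2 : S2 w ≠ ⊤ := by
    intro h
    exact hg2 (by rw [h]; trivial)
  rw [← key _ h1 (S1_ne_top hv)] at hg1
  rw [← key _ h2 hS2] at hg2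
  exact hg2 hg1

/-- transitivity on nonzero vectors -/
lemma trans1 {v w : Fin 3 → ZMod 2} (hv : v ≠ 0) (hw : w ≠ 0) :
    ∃ g : K3, (g : Matrix (Fin 3) (Fin 3) (ZMod 2)) *ᵥ v = w := by
  obtain ⟨f, h1, h2⟩ := ex3 v w hv hw
  refine ⟨tv (v + w) f h1, ?_⟩
  rw [tv_mulVec, h2, one_smul, ← add_assoc]
  ext i
  simp only [Pi.add_apply]
  rw [two_eq, zero_add]

/-- a normal subgroup and an arbitrary subgroup -/
lemma relIndex_dvd {G : Type} [Group G] [Finite G] (H R : Subgroup G) [R.Normal] :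
    H.relIndex R ∣ H.index := by
  have h1 : R.relIndex (H ⊔ R) = R.relIndex H := Subgroup.relIndex_sup_right H R
  have h2 := Subgroup.relIndex_mul_relIndex (H ⊓ R) H (H ⊔ R) inf_le_left le_sup_left
  have h3 := Subgroup.relIndex_mul_relIndex (H ⊓ R) R (H ⊔ R) inf_le_right le_sup_right
  rw [Subgroup.inf_relIndex_left] at h2
  rw [Subgroup.inf_relIndex_right, h1] at h3
  have h4 : R.relIndex H ≠ 0 := Subgroup.index_ne_zero_of_finite (H := R.subgroupOf H)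
  have h5 : H.relIndex (H ⊔ R) = H.relIndex R := by
    rw [← h3, mul_comm (H.relIndex R)] at h2
    exact Nat.eq_of_mul_eq_mul_left (Nat.pos_of_ne_zero h4) h2
  rw [← h5]
  exact Subgroup.relIndex_dvd_index_of_le le_sup_left

end Pool.Agent.V1150.PiDeg
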