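import Pool.Agent.V1150.PiDeg.Cliff
import Pool.Agent.V1150.PiDeg.GL3

/-!
# The groups `G_m`
-/

open Matrix

set_option linter.unusedSectionVars false
set_option linter.style.haveILetI false

noncomputable section

namespace Pool.Agent.V1150.PiDeg

/-- the natural representation and its dual -/
def Mb (b : Bool) (g : K3) : Matrix (Fin 3) (Fin 3) (ZMod 2) :=
  if b then ((g⁻¹ : K3) : Matrix (Fin 3) (Fin 3) (ZMod 2))ᵀ else (g : Matrix (Fin 3) (Fin 3) (ZMod 2))

lemma Mb_mul (b : Bool) (g h : K3) : Mb b (g * h) = Mb b g * Mb b h := by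
  cases b
  · simp [Mb]
  · simp [Mb, _root_.mul_inv_rev, transpose_mul]

lemma Mb_one (b : Bool) : Mb b 1 = 1 := by
  cases b <;> simp [Mb]

lemma Mb_not (b : Bool) (g : K3) : (Mb b g)ᵀ = Mb (!b) g⁻¹ := by
  cases b <;> simp [Mb]

variable {m : ℕ}

/-- tensor products of the representations `Mb` -/
def PP (e : Fin m → Bool) (g : Fin m → K3) : Matrix (Fin m → Fin 3) (Fin m → Fin 3) (ZMod 2) :=
  fun I J => ∏ j, Mb (e j) (g j) (I j) (J j)

lemma PP_mul (e : Fin m → Bool) (g h : Fin m → K3) : PP e (g * h) = PP e g * PP e h := by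
  ext I J
  simp only [PP, Matrix.mul_apply, Pi.mul_apply, Mb_mul]
  rw [Finset.prod_univ_sum]
  simp only [Fintype.piFinset_univ, Finset.prod_mul_distrib]

lemma PP_one (e : Fin m → Bool) : PP e (1 : Fin m → K3) = 1 := by
  ext I J
  simp only [PP, Pi.one_apply, Mb_one]
  by_cases h : I = J
  · subst h; simp
  · rw [Matrix.one_apply_ne h]
    obtain ⟨j, hj⟩ := Function.ne_iff.mp h
    exact Finset.prod_eq_zero (Finset.mem_univ j) (Matrix.one_apply_ne hj)

/-- transposes -/
lemma PP_transpose (e : Fin m → Bool) (g : Fin m → K3) :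
    (PP e g)ᵀ = PP (fun j => !(e j)) g⁻¹ := by
  ext I J
  simp only [PP, Matrix.transpose_apply, Pi.inv_apply]
  refine Finset.prod_congr rfl fun j _ => ?_
  rw [← Mb_not, Matrix.transpose_apply]

/-- strings -/
abbrev Str (m : ℕ) := Fin m → Bool

/-- The module. -/
def AA (p : Str m → ℕ) : Type := ∀ e : Str m, ZMod (p e) → (Fin m → Fin 3) → ZMod 2

instance (p : Str m → ℕ) : AddCommGroup (AA p) :=
  inferInstanceAs (AddCommGroup (∀ e : Str m, ZMod (p e) → (Fin m → Fin 3) → ZMod 2))

/-- The acting group. -/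
abbrev QQ (p : Str m → ℕ) : Type := (Fin m → K3) × (∀ e : Str m, Multiplicative (ZMod (p e)))

variable {p : Str m → ℕ}

instance : DistribMulAction (QQ p) (AA p) where
  smul q a := fun e x => PP e q.1 *ᵥ a e (x - (q.2 e).toAdd)
  one_smul a := by
    funext e x
    change PP e (1 : Fin m → K3) *ᵥ a e (x - ((1 : ∀ e : Str m, Multiplicative (ZMod (p e))) e).toAdd) = a e x
    rw [PP_one, one_mulVec]
    simp
  mul_smul q r a := by
    funext e x
    change PP e (q.1 * r.1) *ᵥ a e (x - ((q.2 * r.2) e).toAdd)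
      = PP e q.1 *ᵥ (PP e r.1 *ᵥ a e (x - (q.2 e).toAdd - (r.2 e).toAdd))
    rw [PP_mul, mulVec_mulVec]
    congr 2
    simp [sub_sub]
  smul_zero q := by
    funext e x
    change PP e q.1 *ᵥ (0 : (Fin m → Fin 3) → ZMod 2) = 0
    rw [mulVec_zero]
  smul_add q a b := by
    funext e x
    change PP e q.1 *ᵥ (a e (x - (q.2 e).toAdd) + b e (x - (q.2 e).toAdd)) = _
    rw [mulVec_add]
    rfl

lemma smul_def (q : QQ p) (a : AA p) (e : Str m) (x : ZMod (p e)) :
    (q • a) e x = PP e q.1 *ᵥ a e (x - (q.2 e).toAdd) := rfl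

/-- The group `G_m`. -/
abbrev GG (p : Str m → ℕ) : Type := SD (AA p) (QQ p)

instance [∀ e, NeZero (p e)] : Finite (AA p) :=
  inferInstanceAs (Finite (∀ e : Str m, ZMod (p e) → (Fin m → Fin 3) → ZMod 2))

lemma add_self (a : AA p) : a + a = 0 := by
  funext e x I
  exact two_eq _

lemma card_AA [∀ e, NeZero (p e)] : ∃ N : ℕ, Nat.card (AA p) = 2 ^ N := by
  have h : Nat.card (AA p) = ∏ e : Str m, ((2 ^ (3 ^ m)) ^ (p e)) := by
    change Nat.card (∀ e : Str m, ZMod (p e) → (Fin m → Fin 3) → ZMod 2) = _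
    rw [Nat.card_pi]
    refine Finset.prod_congr rfl fun e _ => ?_
    simp [Nat.card_eq_fintype_card, ZMod.card]
  refine ⟨∑ e : Str m, 3 ^ m * p e, ?_⟩
  rw [h, ← Finset.prod_pow_eq_pow_sum]
  refine Finset.prod_congr rfl fun e _ => ?_
  rw [← pow_mul]

lemma card_QQ [∀ e, NeZero (p e)] : Nat.card (QQ p) = 168 ^ m * ∏ e : Str m, p e := by
  rw [Nat.card_prod, Nat.card_pi, Nat.card_pi]
  congr 1
  · rw [Finset.prod_const, card_K3, Finset.card_univ, Fintype.card_fin]
  · refine Finset.prod_congr rfl fun e _ => ?_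
    rw [Nat.card_congr Multiplicative.toAdd, Nat.card_eq_fintype_card, ZMod.card]

lemma card_GG [∀ e, NeZero (p e)] :
    ∃ N : ℕ, Nat.card (GG p) = 2 ^ N * (168 ^ m * ∏ e : Str m, p e) := by
  obtain ⟨N, hN⟩ := card_AA (p := p)
  exact ⟨N, by rw [card_SD, hN, card_QQ]⟩

/-! ### Embedding of `F_2^3` along one coordinate -/

/-- the line through `J` in direction `j` -/
def tau (J : Fin m → Fin 3) (j : Fin m) (u : Fin 3 → ZMod 2) : (Fin m → Fin 3) → ZMod 2 :=
  fun I => if ∀ i, i ≠ j → I i = J i then u (I j) else 0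

def iot (j : Fin m) : K3 →* QQ p where
  toFun g := (Pi.mulSingle j g, 1)
  map_one' := by simp
  map_mul' g h := by
    ext1
    · simp [Pi.mulSingle_mul]
    · simp

lemma PP_single (e : Str m) (j : Fin m) (g : K3) (J : Fin m → Fin 3) (u : Fin 3 → ZMod 2) :
    PP e (Pi.mulSingle j g) *ᵥ tau J j u = tau J j (Mb (e j) g *ᵥ u) := by
  funext I
  have hP : ∀ I' : Fin m → Fin 3, PP e (Pi.mulSingle j g) I I'
      = if ∀ i, i ≠ j → I i = I' i then Mb (e j) g (I j) (I' j) else 0 := by
    intro I'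
    unfold PP
    split_ifs with h
    · rw [Finset.prod_eq_single j]
      · rw [Pi.mulSingle_eq_same]
      · intro i _ hi
        rw [Pi.mulSingle_eq_of_ne hi, Mb_one, h i hi, Matrix.one_apply_eq]
      · intro h; exact absurd (Finset.mem_univ j) h
    · push Not at h
      obtain ⟨i, hi, hne⟩ := h
      refine Finset.prod_eq_zero (Finset.mem_univ i) ?_
      rw [Pi.mulSingle_eq_of_ne hi, Mb_one, Matrix.one_apply_ne hne]
  rw [Matrix.mulVec, dotProduct]
  simp only [hP, tau]
  by_cases hI : ∀ i, i ≠ j → I i = J i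
  · rw [if_pos hI, Matrix.mulVec, dotProduct]
    symm
    refine Finset.sum_of_injOn (fun k => Function.update I j k) ?_ ?_ ?_ ?_
    · intro a _ b _ hab
      have := congrFun hab j
      simpa using this
    · intro a _; exact Finset.mem_coe.mpr (Finset.mem_univ _)
    · intro I' _ hI'
      rw [if_neg, zero_mul]
      intro h1
      apply hI'
      refine ⟨I' j, Finset.mem_coe.mpr (Finset.mem_univ _), ?_⟩
      funext i
      by_cases hi : i = j
      · subst hi; simp
      · simp [Function.update_of_ne hi, h1 i hi]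
    · intro k _
      rw [if_pos, if_pos]
      · simp
      · intro i hi
        rw [Function.update_of_ne hi]
        exact hI i hi
      · intro i hi
        rw [Function.update_of_ne hi]
  · rw [if_neg hI]
    refine Finset.sum_eq_zero fun I' _ => ?_
    by_cases h1 : ∀ i, i ≠ j → I i = I' i
    · have h3 : ¬ ∀ i, i ≠ j → I' i = J i := fun h2 => hI fun i hi => (h1 i hi).trans (h2 i hi)
      rw [if_neg h3, mul_zero]
    · rw [if_neg h1, zero_mul]

end Pool.Agent.V1150.PiDeg
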