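import Pool.Agent.V1150.PiDeg.Upper2

/-!
# Lower bound: an irreducible representation of `G_m` of degree `p e * 7 ^ m`
-/

open Matrix

set_option linter.unusedSectionVars false
set_option linter.style.haveILetI false

noncomputable section

namespace Pool.Agent.V1150.PiDeg

variable {m : ℕ} {p : Str m → ℕ}

/-- nonzero vectors -/
abbrev NZ := {v : Fin 3 → ZMod 2 // v ≠ 0}

lemma card_NZ : Fintype.card NZ = 7 := by decide

/-- the basis of the representation -/
@[ext] structure XX (p : Str m → ℕ) (e : Str m) where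
  x : ZMod (p e)
  v : Fin m → NZ

def XXequiv (p : Str m → ℕ) (e : Str m) : XX p e ≃ ZMod (p e) × (Fin m → NZ) :=
  ⟨fun y => (y.x, y.v), fun y => ⟨y.1, y.2⟩, fun _ => rfl, fun _ => rfl⟩

lemma Mb_inv_mul (b : Bool) (g : K3) : Mb b g⁻¹ * Mb b g = 1 := by
  rw [← Mb_mul, inv_mul_cancel, Mb_one]

lemma Mb_mulVec_ne {b : Bool} {g : K3} {v : Fin 3 → ZMod 2} (hv : v ≠ 0) : Mb b g *ᵥ v ≠ 0 := by
  intro h
  apply hv
  rw [← one_mulVec v, ← Mb_inv_mul b g, ← mulVec_mulVec, h, mulVec_zero]

instance (e : Str m) : MulAction (QQ p) (XX p e) where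
  smul q y := ⟨y.x + (q.2 e).toAdd, fun j => ⟨Mb (!(e j)) (q.1 j) *ᵥ (y.v j).1, Mb_mulVec_ne (y.v j).2⟩⟩
  one_smul y := by
    ext1
    · change y.x + ((1 : ∀ e : Str m, Multiplicative (ZMod (p e))) e).toAdd = y.x
      simp
    · funext j
      apply Subtype.ext
      change Mb (!(e j)) (1 : K3) *ᵥ (y.v j).1 = (y.v j).1
      rw [Mb_one, one_mulVec]
  mul_smul q r y := by
    ext1
    · change y.x + ((q.2 * r.2) e).toAdd = y.x + (r.2 e).toAdd + (q.2 e).toAdd
      rw [Pi.mul_apply, toAdd_mul]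
      ring
    · funext j
      apply Subtype.ext
      change Mb (!(e j)) (q.1 j * r.1 j) *ᵥ (y.v j).1
        = Mb (!(e j)) (q.1 j) *ᵥ (Mb (!(e j)) (r.1 j) *ᵥ (y.v j).1)
      rw [Mb_mul, mulVec_mulVec]

lemma xx_smul_x {e : Str m} (q : QQ p) (y : XX p e) : (q • y).x = y.x + (q.2 e).toAdd := rfl
lemma xx_smul_v {e : Str m} (q : QQ p) (y : XX p e) (j : Fin m) :
    ((q • y).v j).1 = Mb (!(e j)) (q.1 j) *ᵥ (y.v j).1 := rfl

/-- decomposable tensors -/
def ten (v : Fin m → NZ) : (Fin m → Fin 3) → ZMod 2 := fun I => ∏ j, (v j).1 (I j)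

/-- the characters -/
def lam {e : Str m} (y : XX p e) : AA p →+ ZMod 2 where
  toFun a := ten y.v ⬝ᵥ a e y.x
  map_zero' := by
    change ten y.v ⬝ᵥ (0 : (Fin m → Fin 3) → ZMod 2) = 0
    rw [dotProduct_zero]
  map_add' a b := by
    change ten y.v ⬝ᵥ (a e y.x + b e y.x) = _
    rw [dotProduct_add]

lemma lam_apply {e : Str m} (y : XX p e) (a : AA p) : lam y a = ten y.v ⬝ᵥ a e y.x := rfl

lemma ten_vecMul {e : Str m} (q : QQ p) (y : XX p e) :
    ten (q • y).v ᵥ* PP e q.1 = ten y.v := by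
  funext J
  rw [Matrix.vecMul, dotProduct]
  have h1 : ∀ I : Fin m → Fin 3, ten (q • y).v I * PP e q.1 I J
      = ∏ j, (((q • y).v j).1 (I j) * Mb (e j) (q.1 j) (I j) (J j)) := by
    intro I
    rw [Finset.prod_mul_distrib]; rfl
  simp only [h1]
  have h2 := (Finset.prod_univ_sum (fun _ : Fin m => (Finset.univ : Finset (Fin 3)))
    (fun j k => ((q • y).v j).1 k * Mb (e j) (q.1 j) k (J j))).symm
  rw [Fintype.piFinset_univ] at h2
  rw [h2, ten]
  refine Finset.prod_congr rfl fun j _ => ?_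
  have h3 : ((q • y).v j).1 ᵥ* Mb (e j) (q.1 j) = (y.v j).1 := by
    rw [xx_smul_v, ← mulVec_transpose, mulVec_mulVec, Mb_not, Mb_inv_mul, one_mulVec]
  exact congrFun h3 (J j)

lemma lam_smul {e : Str m} (q : QQ p) (y : XX p e) : lam (q • y) = q • lam y := by
  ext a
  rw [dual_apply, lam_apply, lam_apply]
  have h1 : a = q • (q⁻¹ • a) := by rw [smul_inv_smul]
  conv_lhs => rw [h1, smul_def]
  rw [dotProduct_mulVec, ten_vecMul, xx_smul_x, add_sub_cancel_right]

lemma zmod2_ne {x : ZMod 2} (h : x ≠ 0) : x = 1 := by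
  revert h; revert x; decide

lemma exists_ten_one (v : Fin m → NZ) : ∃ I : Fin m → Fin 3, ∀ j, (v j).1 (I j) = 1 := by
  have h : ∀ j, ∃ k, (v j).1 k = 1 := by
    intro j
    obtain ⟨k, hk⟩ := Function.ne_iff.mp (v j).2
    exact ⟨k, zmod2_ne hk⟩
  choose I hI using h
  exact ⟨I, hI⟩

lemma ten_inj {v w : Fin m → NZ} (h : ten v = ten w) : v = w := by
  obtain ⟨I, hI⟩ := exists_ten_one v
  have h1 : ten v I = 1 := by rw [ten]; exact Finset.prod_eq_one fun j _ => hI j
  have h2 : ∀ j, (w j).1 (I j) = 1 := by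
    intro j
    apply zmod2_ne
    intro h0
    rw [h, ten, Finset.prod_eq_zero (Finset.mem_univ j) h0] at h1
    exact zero_ne_one h1
  have key : ∀ (u : Fin m → NZ), (∀ j, (u j).1 (I j) = 1) → ∀ j k,
      ten u (Function.update I j k) = (u j).1 k := by
    intro u hu j k
    rw [ten, Finset.prod_eq_single j]
    · simp
    · intro i _ hi
      rw [Function.update_of_ne hi, hu]
    · intro hh; exact absurd (Finset.mem_univ j) hh
  funext j
  apply Subtype.ext
  funext k
  rw [← key v hI j k, ← key w h2 j k, h]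

lemma lam_emb {e : Str m} (y : XX p e) (x : ZMod (p e)) (f : (Fin m → Fin 3) → ZMod 2) :
    lam y (emb e x f) = if y.x = x then ten y.v ⬝ᵥ f else 0 := by
  rw [lam_apply]
  have h1 : (emb e x f : AA p) e = Pi.single x f := sg_same e _
  rw [h1]
  split_ifs with h
  · subst h; rw [Pi.single_eq_same]
  · rw [Pi.single_eq_of_ne h, dotProduct_zero]

lemma lam_inj {e : Str m} {y z : XX p e} (h : lam y = lam z) : y = z := by
  have h1 : ∀ x f, lam y (emb e x f) = lam z (emb e x f) := fun x f => by rw [h]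
  simp only [lam_emb] at h1
  have hx : y.x = z.x := by
    by_contra hne
    obtain ⟨I, hI⟩ := exists_ten_one y.v
    have h2 := h1 y.x (Pi.single I 1)
    rw [if_pos rfl, if_neg (Ne.symm hne), dotProduct_single, mul_one] at h2
    have h3 : ten y.v I = 1 := by rw [ten]; exact Finset.prod_eq_one fun j _ => hI j
    rw [h3] at h2
    exact one_ne_zero h2
  ext1
  · exact hx
  · apply ten_inj
    funext I
    have h2 := h1 y.x (Pi.single I 1)
    rw [if_pos rfl, if_pos hx.symm, dotProduct_single, dotProduct_single, mul_one, mul_one] at h2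
    exact h2

/-- the representation -/
def RR (p : Str m → ℕ) (e : Str m) : Representation ℂ (GG p) (XX p e → ℂ) where
  toFun g :=
    { toFun := fun f y => sgn (lam y g.a) * f (g.q⁻¹ • y)
      map_add' := by intro f f'; funext y; simp [mul_add]
      map_smul' := by intro c f; funext y; simp; ring }
  map_one' := by
    ext f y
    simp [sgn_zero]
  map_mul' g h := by
    apply LinearMap.ext
    intro f
    funext y
    change sgn (lam y (g.a + g.q • h.a)) * f ((g.q * h.q)⁻¹ • y)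
      = sgn (lam y g.a) * (sgn (lam (g.q⁻¹ • y) h.a) * f (h.q⁻¹ • g.q⁻¹ • y))
    rw [map_add, sgn_add, lam_smul, dual_apply, inv_inv, _root_.mul_inv_rev, mul_smul, mul_assoc]

lemma RR_apply {e : Str m} (g : GG p) (f : XX p e → ℂ) (y : XX p e) :
    RR p e g f y = sgn (lam y g.a) * f (g.q⁻¹ • y) := rfl

/-- transitivity -/
lemma Mb_trans (b : Bool) {v w : Fin 3 → ZMod 2} (hv : v ≠ 0) (hw : w ≠ 0) :
    ∃ g : K3, Mb b g *ᵥ v = w := by
  obtain ⟨f, h1, h2⟩ := ex3 v w hv hw
  cases b
  · obtain ⟨g, hg⟩ := trans1 hv hw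
    exact ⟨g, by simpa [Mb] using hg⟩
  · have h1' : (v + w) ⬝ᵥ f = 0 := by rw [dotProduct_comm]; exact h1
    refine ⟨tv f (v + w) h1', ?_⟩
    have h3 := tv_mulVec (v + w) f h1 v
    rw [tv_coe] at h3
    have h4 : Mb true (tv f (v + w) h1') = 1 + vecMulVec (v + w) f := by
      simp only [Mb, if_true]
      rw [tv_inv_coe, transpose_add, transpose_one, transpose_vecMulVec]
    rw [h4, h3, h2, one_smul, ← add_assoc]
    funext i
    simp only [Pi.add_apply]
    rw [two_eq, zero_add]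

lemma XX_trans {e : Str m} (y z : XX p e) : ∃ q : QQ p, q • y = z := by
  have h : ∀ j, ∃ g : K3, Mb (!(e j)) g *ᵥ (y.v j).1 = (z.v j).1 := fun j =>
    Mb_trans _ (y.v j).2 (z.v j).2
  choose g hg using h
  refine ⟨(g, Pi.mulSingle e (Multiplicative.ofAdd (z.x - y.x))), ?_⟩
  ext1
  · rw [xx_smul_x]
    simp
  · funext j
    apply Subtype.ext
    exact hg j

instance [∀ e, NeZero (p e)] (e : Str m) : Finite (XX p e) := Finite.of_equiv _ (XXequiv p e).symm

theorem RR_irr [∀ e, NeZero (p e)] (e : Str m) : (RR p e).IsIrreducible := by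
  classical
  haveI : Fintype (XX p e) := Fintype.ofFinite _
  haveI : Nonempty (XX p e) := ⟨⟨0, fun _ => ⟨fun _ => 1, by
    intro h; exact one_ne_zero (congrFun h 0)⟩⟩⟩
  haveI : Nontrivial (XX p e → ℂ) := Function.nontrivial
  apply irr_of
  intro W hW hne
  let P : ℕ → Prop := fun n => ∃ f ∈ W, f ≠ 0 ∧ (Finset.univ.filter fun y => f y ≠ 0).card = n
  have hP : ∃ n, P n := by
    obtain ⟨f, hf, hf0⟩ := (Submodule.ne_bot_iff W).mp hne
    exact ⟨_, f, hf, hf0, rfl⟩
  obtain ⟨f, hf, hf0, hcard⟩ := Nat.find_spec hP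
  obtain ⟨y, hy⟩ := Function.ne_iff.mp hf0
  have hy' : f y ≠ 0 := hy
  have hsupp : ∀ z, f z ≠ 0 → z = y := by
    intro z hz
    by_contra hzy
    have hl : lam y ≠ lam z := fun h => hzy (lam_inj h).symm
    obtain ⟨a, ha⟩ := DFunLike.ne_iff.mp hl
    let f' : XX p e → ℂ := RR p e (inl a) f - sgn (lam y a) • f
    have hf'W : f' ∈ W := W.sub_mem (hW _ _ hf) (W.smul_mem _ hf)
    have hval : ∀ t, f' t = (sgn (lam t a) - sgn (lam y a)) * f t := by
      intro t
      change sgn (lam t a) * f ((1 : QQ p)⁻¹ • t) - sgn (lam y a) * f t = _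
      rw [inv_one, one_smul]; ring
    have hf'0 : f' ≠ 0 := by
      intro h0
      have h1 := congrFun h0 z
      rw [hval] at h1
      have h2 : sgn (lam z a) - sgn (lam y a) ≠ 0 := by
        intro h3
        exact ha (sgn_inj (sub_eq_zero.mp h3).symm)
      exact (mul_ne_zero h2 hz) h1
    have hlt : (Finset.univ.filter fun t => f' t ≠ 0).card
        < (Finset.univ.filter fun t => f t ≠ 0).card := by
      apply Finset.card_lt_card
      rw [Finset.ssubset_iff_of_subset]
      · refine ⟨y, by simpa using hy', ?_⟩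
        rw [Finset.mem_filter]
        rintro ⟨_, h1⟩
        apply h1
        rw [hval, sub_self, zero_mul]
      · intro t ht
        rw [Finset.mem_filter] at ht ⊢
        refine ⟨ht.1, ?_⟩
        intro h0
        apply ht.2
        rw [hval, h0, mul_zero]
    have hmin := Nat.find_min' hP ⟨f', hf'W, hf'0, rfl⟩
    rw [hcard] at hlt
    omega
  have hsingle : ∀ z : XX p e, (Pi.single z 1 : XX p e → ℂ) ∈ W := by
    intro z
    obtain ⟨q, rfl⟩ := XX_trans y z
    have h1 : (Pi.single (q • y) 1 : XX p e → ℂ) = (f y)⁻¹ • RR p e (inr q) f := by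
      funext t
      change _ = (f y)⁻¹ * (sgn (lam t (0 : AA p)) * f (q⁻¹ • t))
      rw [map_zero, sgn_zero, one_mul]
      by_cases ht : t = q • y
      · subst ht
        rw [Pi.single_eq_same, inv_smul_smul, inv_mul_cancel₀ hy']
      · rw [Pi.single_eq_of_ne ht]
        have h2 : f (q⁻¹ • t) = 0 := by
          by_contra h3
          apply ht
          rw [← hsupp _ h3, smul_inv_smul]
        rw [h2, mul_zero]
    rw [h1]
    exact W.smul_mem _ (hW _ _ hf)
  rw [eq_top_iff]
  intro g _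
  have h1 : g = ∑ z, g z • (Pi.single z 1 : XX p e → ℂ) := by
    funext t
    simp [Finset.sum_apply, Pi.single_apply]
  rw [h1]
  exact W.sum_mem fun z _ => W.smul_mem _ (hsingle z)

lemma finrank_RR [∀ e, NeZero (p e)] (e : Str m) :
    Module.finrank ℂ (XX p e → ℂ) = p e * 7 ^ m := by
  haveI : Fintype (XX p e) := Fintype.ofFinite _
  rw [Module.finrank_fintype_fun_eq_card, Fintype.card_congr (XXequiv p e), Fintype.card_prod,
    ZMod.card, Fintype.card_pi]
  simp [card_NZ]

end Pool.Agent.V1150.PiDeg
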