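import Pool.Agent.V1150.PiDeg.Grp
import Pool.Agent.Helper884.PK.Deg

/-!
# Upper bound: character degrees of `G_m` prime to 6
-/

open Matrix

set_option linter.unusedSectionVars false
set_option linter.style.haveILetI false

noncomputable section

namespace Pool.Agent.V1150.PiDeg

variable {m : ℕ} {p : Str m → ℕ}

/-- the component `e` -/
def sg (e : Str m) : (ZMod (p e) → (Fin m → Fin 3) → ZMod 2) →+ AA p :=
  AddMonoidHom.single (fun e : Str m => ZMod (p e) → (Fin m → Fin 3) → ZMod 2) e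

lemma sg_same (e : Str m) (f : ZMod (p e) → (Fin m → Fin 3) → ZMod 2) : sg e f e = f :=
  Pi.single_eq_same (M := fun e : Str m => ZMod (p e) → (Fin m → Fin 3) → ZMod 2) e f

lemma sg_ne {e e' : Str m} (h : e' ≠ e) (f : ZMod (p e) → (Fin m → Fin 3) → ZMod 2) :
    sg e f e' = 0 :=
  Pi.single_eq_of_ne (M := fun e : Str m => ZMod (p e) → (Fin m → Fin 3) → ZMod 2) h f

lemma smul_sg (q : QQ p) (e : Str m) (f : ZMod (p e) → (Fin m → Fin 3) → ZMod 2) :
    q • sg e f = sg e ((q • sg e f) e) := by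
  funext e' x
  by_cases h : e' = e
  · subst h
    rw [sg_same]
  · rw [smul_def, sg_ne h, sg_ne h]
    simp

/-- embedding of a vector at position `x` of component `e` -/
def emb (e : Str m) (x : ZMod (p e)) : ((Fin m → Fin 3) → ZMod 2) →+ AA p :=
  (sg e).comp (AddMonoidHom.single (fun _ : ZMod (p e) => (Fin m → Fin 3) → ZMod 2) x)

lemma iot_emb (j : Fin m) (g : K3) (e : Str m) (x : ZMod (p e)) (f : (Fin m → Fin 3) → ZMod 2) :
    (iot j g : QQ p) • emb e x f = emb e x (PP e (Pi.mulSingle j g) *ᵥ f) := by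
  unfold emb
  simp only [AddMonoidHom.comp_apply]
  rw [smul_sg]
  congr 1
  funext x'
  rw [smul_def, sg_same]
  have h0 : x' - ((iot j g : QQ p).2 e).toAdd = x' := by
    change x' - ((1 : ∀ e : Str m, Multiplicative (ZMod (p e))) e).toAdd = x'
    simp
  rw [h0]
  change PP e (Pi.mulSingle j g) *ᵥ (Pi.single x f : ZMod (p e) → (Fin m → Fin 3) → ZMod 2) x'
    = (Pi.single x (PP e (Pi.mulSingle j g) *ᵥ f) : ZMod (p e) → (Fin m → Fin 3) → ZMod 2) x'
  by_cases h : x' = x
  · subst h; rw [Pi.single_eq_same, Pi.single_eq_same]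
  · rw [Pi.single_eq_of_ne h, Pi.single_eq_of_ne h, mulVec_zero]

lemma exists_emb_ne {l : AA p →+ ZMod 2} {e : Str m}
    [NeZero (p e)] (h : ∃ f, l (sg e f) ≠ 0) : ∃ (x : ZMod (p e)) (J : Fin m → Fin 3),
    l (emb e x (Pi.single J 1)) ≠ 0 := by
  by_contra hc
  push Not at hc
  obtain ⟨f, hf⟩ := h
  apply hf
  have h1 : l.comp (sg e) = 0 := by
    apply AddMonoidHom.functions_ext
    intro x g
    have h2 : (l.comp (sg e)).comp (AddMonoidHom.single (fun _ : ZMod (p e) => (Fin m → Fin 3) → ZMod 2) x)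
        = 0 := by
      apply AddMonoidHom.functions_ext
      intro J c
      have h3 : ∀ c : ZMod 2, c = 0 ∨ c = 1 := by decide
      rcases h3 c with rfl | rfl
      · simp
      · exact hc x J
    exact congrArg (fun t : ((Fin m → Fin 3) → ZMod 2) →+ ZMod 2 => t g) h2
  exact congrArg (fun t : (ZMod (p e) → (Fin m → Fin 3) → ZMod 2) →+ ZMod 2 => t f) h1

lemma hom_eq_dot (h : (Fin 3 → ZMod 2) →+ ZMod 2) (u : Fin 3 → ZMod 2) :
    h u = (fun k => h (Pi.single k 1)) ⬝ᵥ u := by
  have h1 : u = ∑ k, (u k) • (Pi.single k 1 : Fin 3 → ZMod 2) := by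
    funext i
    simp [Finset.sum_apply, Pi.single_apply]
  conv_lhs => rw [h1]
  rw [map_sum, dotProduct]
  refine Finset.sum_congr rfl fun k _ => ?_
  have h3 : ∀ c : ZMod 2, c = 0 ∨ c = 1 := by decide
  rcases h3 (u k) with h | h <;> rw [h] <;> simp

lemma tau_add (J : Fin m → Fin 3) (j : Fin m) (u v : Fin 3 → ZMod 2) :
    tau J j (u + v) = tau J j u + tau J j v := by
  funext I
  simp only [tau, Pi.add_apply]
  split_ifs <;> simp

lemma tau_single (J : Fin m → Fin 3) (j : Fin m) :
    tau J j (Pi.single (J j) 1) = Pi.single J 1 := by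
  funext I
  simp only [tau]
  by_cases h : I = J
  · subst h; simp
  · rw [Pi.single_eq_of_ne h]
    split_ifs with h1
    · rw [Pi.single_eq_of_ne]
      intro h2
      apply h
      funext i
      by_cases hi : i = j
      · subst hi; exact h2
      · exact h1 i hi
    · rfl

/-- the stabiliser of a weight in the `j`-th copy of `GL(3,2)` -/
def TT (j : Fin m) (l : AA p →+ ZMod 2) : Subgroup K3 :=
  (MulAction.stabilizer (QQ p) l).comap (iot j)

lemma TT_inv {j : Fin m} {l : AA p →+ ZMod 2} {g : K3} (hg : g ∈ TT j l) (a : AA p) :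
    l ((iot j g : QQ p) • a) = l a := by
  have h1 : (iot j g : QQ p) • l = l := hg
  have h2 := congrArg (fun t : AA p →+ ZMod 2 => t ((iot j g : QQ p) • a)) h1
  simp only [dual_apply, inv_smul_smul] at h2
  exact h2.symm

/-- The covector fixed by the stabiliser. -/
lemma exists_covector {l : AA p →+ ZMod 2} {e : Str m} [NeZero (p e)] (h : ∃ f, l (sg e f) ≠ 0)
    (j : Fin m) : ∃ w : Fin 3 → ZMod 2, w ≠ 0 ∧ ∀ g ∈ TT j l, w ᵥ* Mb (e j) g = w := by
  obtain ⟨x, J, hxJ⟩ := exists_emb_ne h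
  let H : (Fin 3 → ZMod 2) →+ ZMod 2 :=
    { toFun := fun u => l (emb e x (tau J j u))
      map_zero' := by
        have : tau J j (0 : Fin 3 → ZMod 2) = 0 := by funext I; simp [tau]
        rw [this]; simp
      map_add' := by
        intro u v
        rw [tau_add, map_add, map_add] }
  refine ⟨fun k => H (Pi.single k 1), ?_, ?_⟩
  · intro h0
    have h1 := congrFun h0 (J j)
    apply hxJ
    rw [← tau_single J j]
    exact h1
  · intro g hg
    have h1 : ∀ u, H (Mb (e j) g *ᵥ u) = H u := by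
      intro u
      change l (emb e x (tau J j (Mb (e j) g *ᵥ u))) = l (emb e x (tau J j u))
      rw [← PP_single, ← iot_emb]
      exact TT_inv hg _
    funext k
    have h2 := h1 (Pi.single k 1)
    rw [hom_eq_dot H, dotProduct_mulVec] at h2
    simpa using h2

/-- two components cannot both be active -/
lemma conflict {l : AA p →+ ZMod 2} {e e' : Str m} [NeZero (p e)] [NeZero (p e')] (hne : e ≠ e')
    (h : ∃ f, l (sg e f) ≠ 0) (h' : ∃ f, l (sg e' f) ≠ 0)
    (hT : ∀ j, Nat.Coprime (TT j l).index 6) : False := by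
  obtain ⟨j, hj⟩ := Function.ne_iff.mp hne
  obtain ⟨w, hw0, hw⟩ := exists_covector h j
  obtain ⟨w', hw0', hw'⟩ := exists_covector h' j
  have key : ∀ (w w' : Fin 3 → ZMod 2), w ≠ 0 → w' ≠ 0 → (∀ g ∈ TT j l, w ᵥ* Mb false g = w) →
      (∀ g ∈ TT j l, w' ᵥ* Mb true g = w') → False := by
    intro w w' h1 h2 h3 h4
    apply no_common (TT j l) (hT j) h2 h1
    · intro g hg
      have h5 := h4 g⁻¹ ((TT j l).inv_mem hg)
      simp only [Mb, if_true, inv_inv] at h5
      rw [vecMul_transpose] at h5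
      exact h5
    · intro g hg
      have h5 := h3 g hg
      have h6 : w ᵥ* (g : Matrix (Fin 3) (Fin 3) (ZMod 2)) = w := by simpa [Mb] using h5
      exact h6
  cases h1 : e j <;> cases h2 : e' j
  · exact hj (h1.trans h2.symm)
  · rw [h1] at hw; rw [h2] at hw'
    exact key w w' hw0 hw0' hw hw'
  · rw [h1] at hw; rw [h2] at hw'
    exact key w' w hw0' hw0 hw' hw
  · exact hj (h1.trans h2.symm)

instance iot_normal (j : Fin m) : (iot (p := p) j).range.Normal := by
  constructor
  rintro _ ⟨k, rfl⟩ q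
  refine ⟨q.1 j * k * (q.1 j)⁻¹, ?_⟩
  ext1
  · funext i
    change Pi.mulSingle (M := fun _ : Fin m => K3) j (q.1 j * k * (q.1 j)⁻¹) i
      = q.1 i * Pi.mulSingle (M := fun _ : Fin m => K3) j k i * (q.1 i)⁻¹
    by_cases hi : i = j
    · subst hi; simp
    · simp [Pi.mulSingle_eq_of_ne hi]
  · funext e
    change (1 : ∀ e : Str m, Multiplicative (ZMod (p e))) e = q.2 e * 1 * (q.2 e)⁻¹
    simp

lemma TT_index [∀ e, NeZero (p e)] (j : Fin m) (l : AA p →+ ZMod 2) :
    (TT j l).index ∣ Nat.card (MulAction.orbit (QQ p) l) := by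
  have h1 : (TT j l).index = (MulAction.stabilizer (QQ p) l).relIndex (iot j).range :=
    Subgroup.index_comap _ _
  rw [h1]
  have h2 := relIndex_dvd (MulAction.stabilizer (QQ p) l) (iot (p := p) j).range
  rw [MulAction.index_stabilizer] at h2
  exact h2

end Pool.Agent.V1150.PiDeg
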