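import Pool.Agent.V1150.PiDeg.Upper

open Matrix

set_option linter.unusedSectionVars false
set_option linter.style.haveILetI false

noncomputable section

namespace Pool.Agent.V1150.PiDeg

variable {m : ℕ} {p : Str m → ℕ}
variable {V : Type} [AddCommGroup V] [Module ℂ V]

/-- If the weight vanishes on the component `e` then this component acts trivially. -/
lemma trivial_comp (ρ : Representation ℂ (GG p) V) (h : ρ.IsIrreducible) (l : AA p →+ ZMod 2)
    (hl : wt ρ l ≠ ⊥) (e : Str m) (he : ∀ f, l (sg e f) = 0) (f) (v : V) :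
    ρ (inl (sg e f)) v = v := by
  let W : Submodule ℂ V :=
    { carrier := {v | ∀ f, ρ (inl (sg e f)) v = v}
      add_mem' := by
        intro v w hv hw f
        rw [map_add, hv f, hw f]
      zero_mem' := by intro f; simp
      smul_mem' := by
        intro c v hv f
        rw [map_smul, hv f] }
  have hW : W = ⊤ := by
    apply irr_top h
    · intro g v hv f
      have h1 : (inl (sg e f) : GG p) * g = g * inl (sg e ((g.q⁻¹ • sg e f) e)) := by
        rw [← smul_sg]
        ext1
        · simp only [inl, mul_a, one_smul, smul_inv_smul]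
          exact add_comm _ _
        · simp [inl]
      rw [← Module.End.mul_apply, ← map_mul, h1, map_mul, Module.End.mul_apply, hv]
    · intro h0
      apply hl
      rw [eq_bot_iff]
      intro v hv
      rw [← h0]
      intro f
      rw [mem_wt.mp hv, he, sgn_zero, one_smul]
  have : v ∈ W := by rw [hW]; trivial
  exact this f

/-- restriction to a supplement of a subgroup acting by scalars -/
lemma irr_restrict {G : Type} [Group G] {ρ : Representation ℂ G V} (h : ρ.IsIrreducible)
    (H : Subgroup G) (hH : ∀ g : G, ∃ x ∈ H, ∃ z : G, g = x * z ∧ ∃ c : ℂ, ∀ v, ρ z v = c • v) :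
    Representation.IsIrreducible (k := ℂ) (G := H) (V := V) (ρ.comp H.subtype) := by
  haveI := irr_nontriv h
  apply irr_of
  intro W hW hne
  apply irr_top h W ?_ hne
  intro g v hv
  obtain ⟨x, hx, z, rfl, c, hc⟩ := hH g
  rw [map_mul, Module.End.mul_apply, hc, map_smul]
  exact W.smul_mem c (hW ⟨x, hx⟩ v hv)

variable [FiniteDimensional ℂ V]

/-- the generator of the `e`-th cyclic group -/
def zz (e : Str m) (c : Multiplicative (ZMod (p e))) : QQ p := (1, Pi.mulSingle e c)

lemma zz_comm (e : Str m) (c : Multiplicative (ZMod (p e))) (q : QQ p) : zz e c * q = q * zz e c := by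
  ext1
  · simp [zz]
  · exact mul_comm _ _

lemma zz_smul_sub (e : Str m) (c : Multiplicative (ZMod (p e))) (a : AA p) :
    zz e c • a - a = sg e ((zz e c • a - a) e) := by
  funext e' x
  by_cases h : e' = e
  · subst h; rw [sg_same]
  · rw [sg_ne h]
    change PP e' (1 : Fin m → K3) *ᵥ a e' (x - ((Pi.mulSingle e c : ∀ e : Str m,
      Multiplicative (ZMod (p e))) e').toAdd) - a e' x = 0
    rw [Pi.mulSingle_eq_of_ne h, PP_one, one_mulVec]
    simp

/-- the projection on the `e`-th cyclic group -/
def prj (e : Str m) : GG p →* Multiplicative (ZMod (p e)) where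
  toFun g := g.q.2 e
  map_one' := rfl
  map_mul' _ _ := rfl

lemma scalar_zz [∀ e, NeZero (p e)] (ρ : Representation ℂ (GG p) V) (h : ρ.IsIrreducible) (e : Str m)
    (ht : ∀ f v, ρ (inl (sg e f)) v = v) (c : Multiplicative (ZMod (p e))) :
    ∃ s : ℂ, ∀ v, ρ (inr (zz e c)) v = s • v := by
  haveI : Fintype (GG p) := Fintype.ofFinite _
  obtain ⟨s, hs⟩ := Helper884.PK.schur ρ h (ρ (inr (zz e c))) (by
    intro g v
    rw [← Module.End.mul_apply, ← Module.End.mul_apply, ← map_mul, ← map_mul]
    have h1 : (inr (zz e c) * g : GG p) = inl (sg e ((zz e c • g.a - g.a) e)) * (g * inr (zz e c)) := by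
      rw [← zz_smul_sub]
      ext1
      · simp [inl, inr]
      · simp only [inl, inr, mul_q, one_mul]
        exact zz_comm e c g.q
    rw [h1, map_mul, Module.End.mul_apply, ht])
  exact ⟨s, fun v => by rw [hs]; rfl⟩

/-- the prime `p e` does not divide the degree if the component `e` acts trivially -/
lemma not_dvd [∀ e, NeZero (p e)] (hp : ∀ e, (p e).Prime) (hp11 : ∀ e, 11 ≤ p e)
    (hinj : Function.Injective p) (ρ : Representation ℂ (GG p) V) (h : ρ.IsIrreducible) (e : Str m)
    (ht : ∀ f v, ρ (inl (sg e f)) v = v) : ¬ p e ∣ Module.finrank ℂ V := by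
  haveI : Fact (p e).Prime := ⟨hp e⟩
  let H : Subgroup (GG p) := (prj (p := p) e).ker
  haveI : Fintype H := Fintype.ofFinite _
  refine Helper884.PK.deg_not_dvd (p e) ?_ (ρ.comp H.subtype : Representation ℂ H V) ?_
  · obtain ⟨N, hN⟩ := card_GG (p := p)
    have hsurj : Function.Surjective (prj (p := p) e) := by
      intro c
      exact ⟨inr (zz e c), by simp [prj, inr, zz]⟩
    have hidx : H.index = p e := by
      rw [Subgroup.index_ker, MonoidHom.range_eq_top.mpr hsurj, Subgroup.card_top,
        Nat.card_congr Multiplicative.toAdd, Nat.card_eq_fintype_card, ZMod.card]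
    have h1 : Nat.card H * p e = 2 ^ N * (168 ^ m * ∏ e : Str m, p e) := by
      rw [← hN, ← hidx]
      exact H.card_mul_index
    rw [← Finset.mul_prod_erase Finset.univ p (Finset.mem_univ e)] at h1
    have h2 : Nat.card H = 2 ^ N * (168 ^ m * ∏ e' ∈ Finset.univ.erase e, p e') := by
      apply Nat.eq_of_mul_eq_mul_right (hp e).pos
      rw [h1]; ring
    rw [h2]
    intro hd
    rcases (hp e).dvd_mul.mp hd with hd | hd
    · have := Nat.le_of_dvd (by norm_num) ((hp e).dvd_of_dvd_pow hd)
      have := hp11 e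
      omega
    rcases (hp e).dvd_mul.mp hd with hd | hd
    · have h3 := (hp e).dvd_of_dvd_pow hd
      have h4 : (168 : ℕ) = 8 * 21 := by norm_num
      rw [h4] at h3
      rcases (hp e).dvd_mul.mp h3 with h3 | h3
      · have := Nat.le_of_dvd (by norm_num) h3
        have := hp11 e
        omega
      · rw [show (21 : ℕ) = 3 * 7 by norm_num] at h3
        rcases (hp e).dvd_mul.mp h3 with h3 | h3
        · have := Nat.le_of_dvd (by norm_num) h3
          have := hp11 e
          omega
        · have := Nat.le_of_dvd (by norm_num) h3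
          have := hp11 e
          omega
    · obtain ⟨e', he', hd⟩ := (Prime.dvd_finsetProd_iff (hp e).prime _).mp hd
      have h3 := (Nat.prime_dvd_prime_iff_eq (hp e) (hp e')).mp hd
      exact (Finset.mem_erase.mp he').1 (hinj h3.symm)
  · apply irr_restrict h
    intro g
    obtain ⟨s, hs⟩ := scalar_zz ρ h e ht (g.q.2 e)
    refine ⟨g * (inr (zz e (g.q.2 e)))⁻¹, ?_, inr (zz e (g.q.2 e)), by simp, s, hs⟩
    rw [MonoidHom.mem_ker, map_mul, map_inv]
    have h1 : prj e (inr (zz e (g.q.2 e)) : GG p) = g.q.2 e := by simp [prj, inr, zz]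
    rw [h1]
    exact mul_inv_cancel _

/-- **Upper bound**: a degree prime to 6 has at most two prime divisors -/
theorem upper [∀ e, NeZero (p e)] (hp : ∀ e, (p e).Prime) (hp11 : ∀ e, 11 ≤ p e)
    (hinj : Function.Injective p) (ρ : Representation ℂ (GG p) V) (h : ρ.IsIrreducible)
    (h2 : ¬ 2 ∣ Module.finrank ℂ V) (h3 : ¬ 3 ∣ Module.finrank ℂ V) :
    (Module.finrank ℂ V).primeFactors.card ≤ 2 := by
  haveI := irr_nontriv h
  obtain ⟨l, hl⟩ := exists_wt add_self ρ
  have hcl := finrank_eq ρ h l hl
  have hcop : ∀ j, Nat.Coprime (TT j l).index 6 := by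
    intro j
    have h4 : (TT j l).index ∣ Module.finrank ℂ V := by
      rw [hcl]
      exact (TT_index j l).trans (dvd_mul_right _ _)
    have h5 : Nat.Coprime (Module.finrank ℂ V) (2 * 3) := by
      apply Nat.Coprime.mul_right
      · exact ((Nat.Prime.coprime_iff_not_dvd Nat.prime_two).mpr h2).symm
      · exact ((Nat.Prime.coprime_iff_not_dvd Nat.prime_three).mpr h3).symm
    exact Nat.Coprime.coprime_dvd_left h4 h5
  -- at most one component is active
  have hone : ∃ e0 : Str m, ∀ e, e ≠ e0 → ∀ f, l (sg e f) = 0 := by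
    by_cases hz : ∃ e, ∃ f, l (sg e f) ≠ 0
    · obtain ⟨e0, he0⟩ := hz
      refine ⟨e0, fun e hne f => ?_⟩
      by_contra hf
      exact conflict hne ⟨f, hf⟩ he0 hcop
    · push Not at hz
      exact ⟨fun _ => false, fun e _ f => hz e f⟩
  obtain ⟨e0, he0⟩ := hone
  have hsub : (Module.finrank ℂ V).primeFactors ⊆ {7, p e0} := by
    intro q hq
    have hqp := Nat.prime_of_mem_primeFactors hq
    have hqd := Nat.dvd_of_mem_primeFactors hq
    haveI : Fact q.Prime := ⟨hqp⟩
    haveI : Fintype (GG p) := Fintype.ofFinite _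
    have hqG : q ∣ Nat.card (GG p) := by
      by_contra hn
      exact Helper884.PK.deg_not_dvd q hn ρ h hqd
    obtain ⟨N, hN⟩ := card_GG (p := p)
    rw [hN] at hqG
    rw [Finset.mem_insert, Finset.mem_singleton]
    have hq2 : q ≠ 2 := by rintro rfl; exact h2 hqd
    have hq3 : q ≠ 3 := by rintro rfl; exact h3 hqd
    rcases hqp.dvd_mul.mp hqG with hd | hd
    · exact absurd ((Nat.prime_dvd_prime_iff_eq hqp Nat.prime_two).mp (hqp.dvd_of_dvd_pow hd)) hq2
    rcases hqp.dvd_mul.mp hd with hd | hd
    · left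
      have h4 := hqp.dvd_of_dvd_pow hd
      rw [show (168 : ℕ) = 2 ^ 3 * (3 * 7) by norm_num] at h4
      rcases hqp.dvd_mul.mp h4 with h4 | h4
      · exact absurd ((Nat.prime_dvd_prime_iff_eq hqp Nat.prime_two).mp (hqp.dvd_of_dvd_pow h4)) hq2
      rcases hqp.dvd_mul.mp h4 with h4 | h4
      · exact absurd ((Nat.prime_dvd_prime_iff_eq hqp Nat.prime_three).mp h4) hq3
      · exact (Nat.prime_dvd_prime_iff_eq hqp (by norm_num)).mp h4
    · right
      obtain ⟨e, _, hd⟩ := (Prime.dvd_finsetProd_iff hqp.prime _).mp hd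
      have h4 := (Nat.prime_dvd_prime_iff_eq hqp (hp e)).mp hd
      by_cases hee : e = e0
      · rw [h4, hee]
      · exfalso
        apply not_dvd hp hp11 hinj ρ h e (fun f v => trivial_comp ρ h l hl e (he0 e hee) f v)
        rw [← h4]; exact hqd
  exact (Finset.card_le_card hsub).trans (Finset.card_le_two)

end Pool.Agent.V1150.PiDeg
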